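import Pool.Agent.W2helper66.XP.Stm

/-!
# Project XP: the first Hamiltonian path
-/

set_option autoImplicit false

namespace Pool.Agent.W2helper98.XP

open Pool.Agent.W2helper66.XP

theorem cast_le {n a b : ℕ} (ha : 1 ≤ a) (hb : b ≤ n) (hab : a ≤ b)
    (h : (a : ZMod n) = (b : ZMod n)) : a = b := by
  have h1 : n ∣ b - a := (Nat.modEq_iff_dvd' hab).mp ((ZMod.natCast_eq_natCast_iff a b n).mp h)
  have h2 : b - a = 0 := by
    by_contra hne
    have h3 := Nat.le_of_dvd (Nat.pos_of_ne_zero hne) h1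
    omega
  omega

theorem cast_inj {n a b : ℕ} (ha : 1 ≤ a) (ha' : a ≤ n) (hb : 1 ≤ b) (hb' : b ≤ n)
    (h : (a : ZMod n) = (b : ZMod n)) : a = b := by
  rcases le_total a b with hab | hab
  · exact cast_le ha hb' hab h
  · exact (cast_le hb ha' hab h.symm).symm

theorem up {n b c v : ℕ} (hb : 1 ≤ b) (hb' : b ≤ n) (hc : 1 ≤ c) (hc' : c ≤ n) (hv : 1 ≤ v)
    (hv' : v < n) (hvb : v ≠ b) (hvc : v ≠ c) :
    EdgeA n b c (v : ZMod n) ((v + 1 : ℕ) : ZMod n) := by
  refine Or.inl ⟨by push_cast; rfl, ?_, ?_, ?_⟩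
  · intro h
    have h1 : (v : ZMod n) = (n : ZMod n) := by rw [h, ZMod.natCast_self]
    have := cast_inj hv hv'.le (by omega) le_rfl h1
    omega
  · intro h
    exact hvb (cast_inj hv hv'.le hb hb' h)
  · intro h
    exact hvc (cast_inj hv hv'.le hc hc' h)

theorem e0 {n b c : ℕ} : EdgeA n b c ((n : ℕ) : ZMod n) (b : ZMod n) :=
  Or.inr (Or.inl ⟨ZMod.natCast_self n, rfl⟩)

theorem e1 {n b c : ℕ} : EdgeA n b c ((1 : ℕ) : ZMod n) ((b + 1 : ℕ) : ZMod n) :=
  Or.inr (Or.inr ⟨by push_cast; rfl, by push_cast; rfl⟩)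

/-- the path, `b < c` -/
def g1 (n b c i : ℕ) : ℕ :=
  if i < c - b then c - i else if i < c then i + b + 1 - c else n + c - i

/-- the path, `c < b` -/
def g2 (n b c i : ℕ) : ℕ :=
  if i < c then c - i else if i < c + n - b then b + 1 + i - c else n + c - i

/-- a sequence of numbers between `1` and `n` -/
theorem of_seq {n b c : ℕ} (g : ℕ → ℕ) (hg : ∀ i < n, 1 ≤ g i ∧ g i ≤ n)
    (hinj : ∀ i j, i < n → j < n → g i = g j → i = j) (h0 : g 0 = c) (h1 : g (n - 1) = c + 1)
    (hb : 2 ≤ b) (hb' : b + 2 ≤ n) (hc : 2 ≤ c) (hc' : c + 2 ≤ n)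
    (hstep : ∀ i, i + 1 < n → (g (i + 1) = g i + 1 ∧ g i < n ∧ g i ≠ b ∧ g i ≠ c) ∨
      (g i = g (i + 1) + 1 ∧ g (i + 1) < n ∧ g (i + 1) ≠ b ∧ g (i + 1) ≠ c) ∨
      (g i = n ∧ g (i + 1) = b) ∨ (g (i + 1) = n ∧ g i = b) ∨
      (g i = 1 ∧ g (i + 1) = b + 1) ∨ (g (i + 1) = 1 ∧ g i = b + 1)) :
    ∃ β : ℕ → ZMod n, (∀ i j, i < n → j < n → β i = β j → i = j) ∧
    β 0 = (c : ZMod n) ∧ β (n - 1) = (c : ZMod n) + 1 ∧
    ∀ i, i + 1 < n → EdgeA n b c (β i) (β (i + 1)) ∨ EdgeA n b c (β (i + 1)) (β i) := by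
  refine ⟨fun i => (g i : ZMod n), ?_, congrArg (Nat.cast : ℕ → ZMod n) h0,
    (congrArg (Nat.cast : ℕ → ZMod n) h1).trans (by push_cast; rfl), ?_⟩
  · intro i j hi hj hij
    exact hinj i j hi hj (cast_inj (hg i hi).1 (hg i hi).2 (hg j hj).1 (hg j hj).2 hij)
  · intro i hi
    have hgi := hg i (by omega)
    have hgi' := hg (i + 1) hi
    rcases hstep i hi with h | h | h | h | h | h
    · left
      show EdgeA n b c (g i : ZMod n) (g (i + 1) : ZMod n)
      rw [h.1]
      exact up (by omega) (by omega) (by omega) (by omega) hgi.1 h.2.1 h.2.2.1 h.2.2.2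
    · right
      show EdgeA n b c (g (i + 1) : ZMod n) (g i : ZMod n)
      rw [h.1]
      exact up (by omega) (by omega) (by omega) (by omega) hgi'.1 h.2.1 h.2.2.1 h.2.2.2
    · left
      show EdgeA n b c (g i : ZMod n) (g (i + 1) : ZMod n)
      rw [h.1, h.2]
      exact e0
    · right
      show EdgeA n b c (g (i + 1) : ZMod n) (g i : ZMod n)
      rw [h.1, h.2]
      exact e0
    · left
      show EdgeA n b c (g i : ZMod n) (g (i + 1) : ZMod n)
      rw [h.1, h.2]
      exact e1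
    · right
      show EdgeA n b c (g (i + 1) : ZMod n) (g i : ZMod n)
      rw [h.1, h.2]
      exact e1

theorem patha : PATHA := by
  intro n b c hb hb' hc hc' hbc
  rcases lt_or_gt_of_ne hbc with hlt | hlt
  · refine of_seq (g1 n b c) ?_ ?_ ?_ ?_ hb hb' hc hc' ?_
    · intro i hi
      unfold g1
      split_ifs <;> omega
    · intro i j hi hj
      unfold g1
      split_ifs <;> omega
    · unfold g1
      split_ifs <;> omega
    · unfold g1
      split_ifs <;> omega
    · intro i hi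
      unfold g1
      split_ifs <;> omega
  · refine of_seq (g2 n b c) ?_ ?_ ?_ ?_ hb hb' hc hc' ?_
    · intro i hi
      unfold g2
      split_ifs <;> omega
    · intro i j hi hj
      unfold g2
      split_ifs <;> omega
    · unfold g2
      split_ifs <;> omega
    · unfold g2
      split_ifs <;> omega
    · intro i hi
      unfold g2
      split_ifs <;> omega

end Pool.Agent.W2helper98.XP
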